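import Mathlib
import Pool.Agent.H15R13b
set_option autoImplicit false

namespace Pool.Agent.Results.MP_a5101a_co.ExplicitBound

/-- An admissible configuration: thirteen points of 3-space at distance at least `2` from the origin and
from each other. -/
def Admissible (x : Fin 13 → EuclideanSpace ℝ (Fin 3)) : Prop :=
  (∀ i, 2 ≤ ‖x i‖) ∧ ∀ i j, i ≠ j → 2 ≤ ‖x i - x j‖

/-- The mean distance to the origin. -/
noncomputable def meanDist (x : Fin 13 → EuclideanSpace ℝ (Fin 3)) : ℝ := (1 / 13) * ∑ i, ‖x i‖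

/-- The infimum `m` of the mean distance over all admissible configurations. -/
noncomputable def m : ℝ := sInf {M | ∃ x, Admissible x ∧ meanDist x = M}

theorem angle_bound (a b i : ℝ) (ha : 2 ≤ a) (hb : 2 ≤ b) (ha' : a < 2 + 1 / 500) (hb' : b < 2 + 1 / 500)
    (h : 4 ≤ a ^ 2 - 2 * i + b ^ 2) : a⁻¹ * (b⁻¹ * i) ≤ 501 / 1000 := by
  have h1 : i ≤ 501 / 1000 * (a * b) := by
    obtain ⟨p, hp⟩ : ∃ p : ℝ, p = a - 2 := ⟨_, rfl⟩
    obtain ⟨q, hq⟩ : ∃ q : ℝ, q = b - 2 := ⟨_, rfl⟩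
    have hp0 : 0 ≤ p := by linarith
    have hq0 : 0 ≤ q := by linarith
    have hp1 : p ≤ 1 / 500 := by linarith
    have hq1 : q ≤ 1 / 500 := by linarith
    have ea : a = 2 + p := by linarith
    have eb : b = 2 + q := by linarith
    rw [ea, eb] at h ⊢
    nlinarith [mul_nonneg hp0 hq0, mul_nonneg hp0 (sub_nonneg.mpr hp1), mul_nonneg hq0 (sub_nonneg.mpr hq1)]
  have ha0 : 0 < a := by linarith
  have hb0 : 0 < b := by linarith
  have h2 : a⁻¹ * (b⁻¹ * i) = i / (a * b) := by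
    field_simp
  rw [h2, div_le_iff₀ (mul_pos ha0 hb0)]
  exact h1

theorem mean_bound (x : Fin 13 → EuclideanSpace ℝ (Fin 3)) (hx : Admissible x) :
    2 + 1 / 6500 ≤ meanDist x := by
  classical
  by_contra hcon
  push Not at hcon
  unfold meanDist at hcon
  obtain ⟨h2, hsep⟩ := hx
  have hsum : ∑ i, ‖x i‖ < 26 + 1 / 500 := by linarith
  have hlt : ∀ i, ‖x i‖ < 2 + 1 / 500 := by
    intro i
    rw [← Finset.add_sum_erase Finset.univ (fun j => ‖x j‖) (Finset.mem_univ i)] at hsum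
    have h3 : (Finset.univ.erase i).card • (2 : ℝ) ≤ ∑ j ∈ Finset.univ.erase i, ‖x j‖ :=
      Finset.card_nsmul_le_sum _ _ _ (fun j _ => h2 j)
    rw [Finset.card_erase_of_mem (Finset.mem_univ i), Finset.card_univ, Fintype.card_fin] at h3
    norm_num at h3
    linarith
  have hin : ∀ i j, i ≠ j → inner ℝ (‖x i‖⁻¹ • x i) (‖x j‖⁻¹ • x j) ≤ (501 / 1000 : ℝ) := by
    intro i j hij
    rw [real_inner_smul_left, real_inner_smul_right]
    apply angle_bound _ _ _ (h2 i) (h2 j) (hlt i) (hlt j)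
    have h4 := hsep i j hij
    have h5 : (2 : ℝ) ^ 2 ≤ ‖x i - x j‖ ^ 2 := pow_le_pow_left₀ (by norm_num) h4 2
    rw [norm_sub_sq_real] at h5
    linarith
  have hunit : ∀ i, ‖‖x i‖⁻¹ • x i‖ = 1 := by
    intro i
    rw [norm_smul, norm_inv, norm_norm]
    exact inv_mul_cancel₀ (by have := h2 i; linarith)
  have hinj : Function.Injective (fun i => ‖x i‖⁻¹ • x i) := by
    intro i j hij
    by_contra hne
    have h6 := hin i j hne
    simp only at hij
    rw [hij, real_inner_self_eq_norm_sq, hunit j] at h6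
    norm_num at h6
  have hcard := Pool.Agent.H15R13.card_le_12 (Finset.univ.image (fun i => ‖x i‖⁻¹ • x i)) (by
    intro u hu
    rw [Finset.mem_image] at hu
    obtain ⟨i, -, rfl⟩ := hu
    exact hunit i) (by
    intro u hu v hv huv
    rw [Finset.mem_image] at hu hv
    obtain ⟨i, -, rfl⟩ := hu
    obtain ⟨j, -, rfl⟩ := hv
    exact hin i j (fun h => huv (by rw [h])))
  rw [Finset.card_image_of_injective _ hinj, Finset.card_univ, Fintype.card_fin] at hcard
  omega

theorem exists_admissible : ∃ x, Admissible x := by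
  refine ⟨fun i => EuclideanSpace.single 0 (2 * ((i : ℕ) + 1 : ℝ)), ?_, ?_⟩
  · intro i
    rw [EuclideanSpace.norm_single, Real.norm_eq_abs, abs_of_nonneg (by positivity)]
    have : (0 : ℝ) ≤ (i : ℕ) := Nat.cast_nonneg _
    linarith
  · intro i j hij
    have h0 : (EuclideanSpace.single 0 (2 * ((i : ℕ) + 1 : ℝ)) : EuclideanSpace ℝ (Fin 3)) -
        EuclideanSpace.single 0 (2 * ((j : ℕ) + 1 : ℝ)) = EuclideanSpace.single 0 (2 * (((i : ℕ) : ℝ) - ((j : ℕ) : ℝ))) := by
      ext k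
      simp only [PiLp.sub_apply, EuclideanSpace.single_apply]
      split_ifs <;> ring
    rw [h0, EuclideanSpace.norm_single, Real.norm_eq_abs, abs_mul, abs_two]
    have h1 : (1 : ℝ) ≤ |((i : ℕ) : ℝ) - ((j : ℕ) : ℝ)| := by
      have h2 : ((i : ℕ) : ℤ) - ((j : ℕ) : ℤ) ≠ 0 := by
        intro h3
        apply hij
        apply Fin.ext
        omega
      have h4 := Int.one_le_abs h2
      exact_mod_cast h4
    linarith

/-- The explicit lower bound `m ≥ 2 + 1/6500`. -/
theorem result :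
    (∀ x : Fin 13 → EuclideanSpace ℝ (Fin 3), Admissible x → 2 + 1 / 6500 ≤ meanDist x) ∧
      2 + 1 / 6500 ≤ m := by
  refine ⟨mean_bound, ?_⟩
  unfold m
  apply le_csInf
  · obtain ⟨x, hx⟩ := exists_admissible
    exact ⟨_, x, hx, rfl⟩
  · rintro M ⟨x, hx, rfl⟩
    exact mean_bound x hx

end Pool.Agent.Results.MP_a5101a_co.ExplicitBound
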