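import Mathlib
import Pool.Agent.H15R13b
set_option autoImplicit false

namespace Pool.Agent.Results.MP_a5101a_co.TwoSided

/-- An admissible configuration: thirteen points of 3-space at distance at least `2` from the origin and
from each other. -/
def Admissible (x : Fin 13 → EuclideanSpace ℝ (Fin 3)) : Prop :=
  (∀ i, 2 ≤ ‖x i‖) ∧ ∀ i j, i ≠ j → 2 ≤ ‖x i - x j‖

/-- The mean distance to the origin. -/
noncomputable def meanDist (x : Fin 13 → EuclideanSpace ℝ (Fin 3)) : ℝ := (1 / 13) * ∑ i, ‖x i‖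

/-- The infimum `m` of the mean distance over all admissible configurations. -/
noncomputable def m : ℝ := sInf {M | ∃ x, Admissible x ∧ meanDist x = M}

theorem angle_bound (a b i : ℝ) (ha : 2 ≤ a) (hb : 2 ≤ b) (ha' : a < 2 + 1 / 500) (hb' : b < 2 + 1 / 500)
    (h : 4 ≤ a ^ 2 - 2 * i + b ^ 2) : a⁻¹ * (b⁻¹ * i) ≤ 501 / 1000 := by
  have h1 : i ≤ 501 / 1000 * (a * b) := by
    obtain ⟨p, hp⟩ : ∃ p : ℝ, p = a - 2 := ⟨_, rfl⟩
    obtain ⟨q, hq⟩ : ∃ q : ℝ, q = b - 2 := ⟨_, rfl⟩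
    have hp0 : 0 ≤ p := by linarith
    have hq0 : 0 ≤ q := by linarith
    have hp1 : p ≤ 1 / 500 := by linarith
    have hq1 : q ≤ 1 / 500 := by linarith
    have ea : a = 2 + p := by linarith
    have eb : b = 2 + q := by linarith
    rw [ea, eb] at h ⊢
    nlinarith [mul_nonneg hp0 hq0, mul_nonneg hp0 (sub_nonneg.mpr hp1), mul_nonneg hq0 (sub_nonneg.mpr hq1)]
  have ha0 : 0 < a := by linarith
  have hb0 : 0 < b := by linarith
  have h2 : a⁻¹ * (b⁻¹ * i) = i / (a * b) := by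
    field_simp
  rw [h2, div_le_iff₀ (mul_pos ha0 hb0)]
  exact h1

theorem mean_bound (x : Fin 13 → EuclideanSpace ℝ (Fin 3)) (hx : Admissible x) :
    2 + 1 / 6500 ≤ meanDist x := by
  classical
  by_contra hcon
  push Not at hcon
  unfold meanDist at hcon
  obtain ⟨h2, hsep⟩ := hx
  have hsum : ∑ i, ‖x i‖ < 26 + 1 / 500 := by linarith
  have hlt : ∀ i, ‖x i‖ < 2 + 1 / 500 := by
    intro i
    rw [← Finset.add_sum_erase Finset.univ (fun j => ‖x j‖) (Finset.mem_univ i)] at hsum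
    have h3 : (Finset.univ.erase i).card • (2 : ℝ) ≤ ∑ j ∈ Finset.univ.erase i, ‖x j‖ :=
      Finset.card_nsmul_le_sum _ _ _ (fun j _ => h2 j)
    rw [Finset.card_erase_of_mem (Finset.mem_univ i), Finset.card_univ, Fintype.card_fin] at h3
    norm_num at h3
    linarith
  have hin : ∀ i j, i ≠ j → inner ℝ (‖x i‖⁻¹ • x i) (‖x j‖⁻¹ • x j) ≤ (501 / 1000 : ℝ) := by
    intro i j hij
    rw [real_inner_smul_left, real_inner_smul_right]
    apply angle_bound _ _ _ (h2 i) (h2 j) (hlt i) (hlt j)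
    have h4 := hsep i j hij
    have h5 : (2 : ℝ) ^ 2 ≤ ‖x i - x j‖ ^ 2 := pow_le_pow_left₀ (by norm_num) h4 2
    rw [norm_sub_sq_real] at h5
    linarith
  have hunit : ∀ i, ‖‖x i‖⁻¹ • x i‖ = 1 := by
    intro i
    rw [norm_smul, norm_inv, norm_norm]
    exact inv_mul_cancel₀ (by have := h2 i; linarith)
  have hinj : Function.Injective (fun i => ‖x i‖⁻¹ • x i) := by
    intro i j hij
    by_contra hne
    have h6 := hin i j hne
    simp only at hij
    rw [hij, real_inner_self_eq_norm_sq, hunit j] at h6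
    norm_num at h6
  have hcard := Pool.Agent.H15R13.card_le_12 (Finset.univ.image (fun i => ‖x i‖⁻¹ • x i)) (by
    intro u hu
    rw [Finset.mem_image] at hu
    obtain ⟨i, -, rfl⟩ := hu
    exact hunit i) (by
    intro u hu v hv huv
    rw [Finset.mem_image] at hu hv
    obtain ⟨i, -, rfl⟩ := hu
    obtain ⟨j, -, rfl⟩ := hv
    exact hin i j (fun h => huv (by rw [h])))
  rw [Finset.card_image_of_injective _ hinj, Finset.card_univ, Fintype.card_fin] at hcard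
  omega

theorem le_of_sq_le_sq' {a b : ℝ} (h : a ^ 2 ≤ b ^ 2) (hb : 0 ≤ b) : a ≤ b := by
  by_contra hcon
  push Not at hcon
  nlinarith

def X : Fin 13 → Fin 3 → ℤ := ![![1875761, -82040, -689056], ![1534168, -64344, 1281480], ![-918176, -1776522, -30441], ![-142193, -1081033, 1676649], ![1072840, 1649259, 359114], ![-1415092, -371053, -1363760], ![-1773097, -224769, 897558], ![427125, -1110520, -1607579], ![-1380019, 1586329, -1772940], ![1066182, -1680266, 199911], ![560887, 1177888, -1515912], ![-138202, 916681, 1772173], ![-1215828, 1572657, 220263]]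

def R : Fin 13 → ℤ := ![2000003, 2000001, 2000002, 2000001, 2000001, 2000002, 2000002, 2000001, 2750311, 2000001, 2000001, 2000001, 2000001]

theorem X_norm : ∀ i, 4 * 10 ^ 12 ≤ X i 0 * X i 0 + X i 1 * X i 1 + X i 2 * X i 2 := by decide

theorem X_sep : ∀ i j, i ≠ j → 4 * 10 ^ 12 ≤ (X i 0 - X j 0) * (X i 0 - X j 0) +
    (X i 1 - X j 1) * (X i 1 - X j 1) + (X i 2 - X j 2) * (X i 2 - X j 2) := by decide

theorem X_R : ∀ i, X i 0 * X i 0 + X i 1 * X i 1 + X i 2 * X i 2 ≤ R i * R i := by decide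

theorem R_nonneg : ∀ i, 0 ≤ R i := by decide

theorem R_sum : ∑ i, R i ≤ 26751400 := by decide

/-- An explicit configuration. -/
noncomputable def x0 (i : Fin 13) : EuclideanSpace ℝ (Fin 3) := WithLp.toLp 2 (fun k => (X i k : ℝ) / 10 ^ 6)

theorem x0_apply (i : Fin 13) (k : Fin 3) : x0 i k = (X i k : ℝ) / 10 ^ 6 := rfl

theorem x0_sq (i : Fin 13) : ‖x0 i‖ ^ 2 =
    ((X i 0 * X i 0 + X i 1 * X i 1 + X i 2 * X i 2 : ℤ) : ℝ) / 10 ^ 12 := by
  rw [EuclideanSpace.norm_sq_eq, Fin.sum_univ_three]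
  simp only [Real.norm_eq_abs, sq_abs, x0_apply]
  push_cast
  ring

theorem x0_sub_sq (i j : Fin 13) : ‖x0 i - x0 j‖ ^ 2 =
    (((X i 0 - X j 0) * (X i 0 - X j 0) + (X i 1 - X j 1) * (X i 1 - X j 1) +
      (X i 2 - X j 2) * (X i 2 - X j 2) : ℤ) : ℝ) / 10 ^ 12 := by
  rw [EuclideanSpace.norm_sq_eq, Fin.sum_univ_three]
  simp only [Real.norm_eq_abs, sq_abs, PiLp.sub_apply, x0_apply]
  push_cast
  ring

theorem x0_adm : Admissible x0 := by
  constructor
  · intro i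
    have h : ((4 * 10 ^ 12 : ℤ) : ℝ) ≤ ((X i 0 * X i 0 + X i 1 * X i 1 + X i 2 * X i 2 : ℤ) : ℝ) :=
      Int.cast_le.mpr (X_norm i)
    have h2 : (2 : ℝ) ^ 2 ≤ ‖x0 i‖ ^ 2 := by
      rw [x0_sq, le_div_iff₀ (by norm_num)]
      refine le_trans (le_of_eq ?_) h
      norm_num
    exact le_of_sq_le_sq' h2 (norm_nonneg _)
  · intro i j hij
    have h : ((4 * 10 ^ 12 : ℤ) : ℝ) ≤ (((X i 0 - X j 0) * (X i 0 - X j 0) + (X i 1 - X j 1) * (X i 1 - X j 1) +
      (X i 2 - X j 2) * (X i 2 - X j 2) : ℤ) : ℝ) := Int.cast_le.mpr (X_sep i j hij)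
    have h2 : (2 : ℝ) ^ 2 ≤ ‖x0 i - x0 j‖ ^ 2 := by
      rw [x0_sub_sq, le_div_iff₀ (by norm_num)]
      refine le_trans (le_of_eq ?_) h
      norm_num
    exact le_of_sq_le_sq' h2 (norm_nonneg _)

theorem x0_le (i : Fin 13) : ‖x0 i‖ ≤ (R i : ℝ) / 10 ^ 6 := by
  have hR : (0 : ℝ) ≤ (R i : ℝ) / 10 ^ 6 := div_nonneg (by exact_mod_cast R_nonneg i) (by norm_num)
  apply le_of_sq_le_sq' _ hR
  rw [x0_sq, div_pow, div_le_div_iff₀ (by norm_num) (by norm_num)]
  have h : ((X i 0 * X i 0 + X i 1 * X i 1 + X i 2 * X i 2 : ℤ) : ℝ) ≤ ((R i * R i : ℤ) : ℝ) :=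
    Int.cast_le.mpr (X_R i)
  have h3 : ((R i * R i : ℤ) : ℝ) = (R i : ℝ) ^ 2 := by push_cast; ring
  rw [h3] at h
  have h4 : ((10 : ℝ) ^ 6) ^ 2 = 10 ^ 12 := by norm_num
  rw [h4]
  exact mul_le_mul_of_nonneg_right h (by norm_num)

theorem x0_mean : meanDist x0 ≤ 20578 / 10000 := by
  unfold meanDist
  have h : ∑ i, ‖x0 i‖ ≤ ∑ i, (R i : ℝ) / 10 ^ 6 := Finset.sum_le_sum (fun i _ => x0_le i)
  have h2 : ∑ i, (R i : ℝ) / 10 ^ 6 ≤ 26751400 / 10 ^ 6 := by
    rw [← Finset.sum_div]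
    apply div_le_div_of_nonneg_right _ (by norm_num)
    have h5 : ∑ i : Fin 13, (R i : ℝ) = ((∑ i, R i : ℤ) : ℝ) := by
      rw [Int.cast_sum]
    rw [h5]
    exact_mod_cast R_sum
  norm_num at h2 ⊢
  linarith

/-- Explicit two-sided bounds `2 + 1/6500 ≤ m ≤ 2.0578`. -/
theorem result :
    (∀ x : Fin 13 → EuclideanSpace ℝ (Fin 3), Admissible x → 2 + 1 / 6500 ≤ meanDist x) ∧
      (∃ x : Fin 13 → EuclideanSpace ℝ (Fin 3), Admissible x ∧ meanDist x ≤ 2.0578) ∧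
      2 + 1 / 6500 ≤ m ∧ m ≤ 2.0578 := by
  have hb : BddBelow {M | ∃ x, Admissible x ∧ meanDist x = M} := by
    refine ⟨2 + 1 / 6500, ?_⟩
    rintro M ⟨x, hx, rfl⟩
    exact mean_bound x hx
  have h0 : meanDist x0 ≤ 2.0578 := by
    have := x0_mean
    norm_num at this ⊢
    linarith
  refine ⟨mean_bound, ⟨x0, x0_adm, h0⟩, ?_, ?_⟩
  · unfold m
    refine le_csInf ⟨meanDist x0, x0, x0_adm, rfl⟩ ?_
    rintro M ⟨x, hx, rfl⟩
    exact mean_bound x hx
  · unfold m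
    exact (csInf_le hb ⟨x0, x0_adm, rfl⟩).trans h0

end Pool.Agent.Results.MP_a5101a_co.TwoSided
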